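import Pool.Agent.H97.NR.Stmts

/-!
# Project NR: filtration of a ring given by an upper triangular table (I5I, I5A, I5B)
-/

set_option autoImplicit false

namespace Pool.NR.IB

universe u

variable {p : ℕ} {R : Type u} [NonUnitalRing R]

theorem card_sup_le (hp : 0 < p) [Finite R] (K : AddSubgroup R) (x : R) (hx : p • x ∈ K) :
    Nat.card (K ⊔ AddSubgroup.zmultiples x : AddSubgroup R) ≤ p * Nat.card K := by
  have hmem : ∀ q : Fin p × K, (q.1 : ℕ) • x + (q.2 : R) ∈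
      (K ⊔ AddSubgroup.zmultiples x : AddSubgroup R) := by
    intro q
    refine add_mem ?_ ?_
    · exact AddSubgroup.nsmul_mem _ (AddSubgroup.mem_sup_right
        (AddSubgroup.mem_zmultiples x)) _
    · exact AddSubgroup.mem_sup_left q.2.2
  let f : Fin p × K → (K ⊔ AddSubgroup.zmultiples x : AddSubgroup R) := fun q => ⟨_, hmem q⟩
  have hf : Function.Surjective f := by
    rintro ⟨y, hy⟩
    obtain ⟨k, hk, z, hz, rfl⟩ := AddSubgroup.mem_sup.1 hy
    obtain ⟨n, rfl⟩ := AddSubgroup.mem_zmultiples_iff.1 hz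
    have hr0 : 0 ≤ n % (p : ℤ) := Int.emod_nonneg _ (by omega)
    have hr1 : n % (p : ℤ) < p := Int.emod_lt_of_pos _ (by omega)
    refine ⟨(⟨(n % (p : ℤ)).toNat, by omega⟩, ⟨k + (n / (p : ℤ)) • (p • x),
      add_mem hk (AddSubgroup.zsmul_mem _ hx _)⟩), ?_⟩
    apply Subtype.ext
    change ((n % (p : ℤ)).toNat : ℕ) • x + (k + (n / (p : ℤ)) • (p • x)) = k + n • x
    have h1 : ((n % (p : ℤ)).toNat : ℕ) • x = (n % (p : ℤ)) • x := by
      rw [← natCast_zsmul, Int.toNat_of_nonneg hr0]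
    have h2 : (n / (p : ℤ)) • (p • x) = ((n / (p : ℤ)) * p) • x := by
      rw [← natCast_zsmul, smul_smul]
    rw [h1, h2]
    have h3 : n • x = (n % (p : ℤ)) • x + ((n / (p : ℤ)) * p) • x := by
      rw [← add_smul, Int.emod_add_ediv_mul n (p : ℤ)]
    rw [h3]
    abel
  have h := Nat.card_le_card_of_surjective f hf
  rwa [Nat.card_prod, Nat.card_fin] at h

/-- the last three steps of the filtration -/
def H3 (g : Fin 4 → R) : AddSubgroup R := AddSubgroup.zmultiples (g 3)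
def H2 (g : Fin 4 → R) : AddSubgroup R := H3 g ⊔ AddSubgroup.zmultiples (g 2)
def H1 (g : Fin 4 → R) : AddSubgroup R := H2 g ⊔ AddSubgroup.zmultiples (g 1)

theorem m33 (g : Fin 4 → R) : g 3 ∈ H3 g := AddSubgroup.mem_zmultiples _
theorem m23 (g : Fin 4 → R) : g 3 ∈ H2 g := AddSubgroup.mem_sup_left (m33 g)
theorem m22 (g : Fin 4 → R) : g 2 ∈ H2 g := AddSubgroup.mem_sup_right (AddSubgroup.mem_zmultiples _)
theorem m13 (g : Fin 4 → R) : g 3 ∈ H1 g := AddSubgroup.mem_sup_left (m23 g)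
theorem m12 (g : Fin 4 → R) : g 2 ∈ H1 g := AddSubgroup.mem_sup_left (m22 g)
theorem m11 (g : Fin 4 → R) : g 1 ∈ H1 g := AddSubgroup.mem_sup_right (AddSubgroup.mem_zmultiples _)

theorem H3_le {g : Fin 4 → R} {K : AddSubgroup R} (h3 : g 3 ∈ K) : H3 g ≤ K :=
  (AddSubgroup.zmultiples_le).2 h3

theorem H2_le {g : Fin 4 → R} {K : AddSubgroup R} (h3 : g 3 ∈ K) (h2 : g 2 ∈ K) : H2 g ≤ K :=
  sup_le (H3_le h3) ((AddSubgroup.zmultiples_le).2 h2)

theorem H1_le {g : Fin 4 → R} {K : AddSubgroup R} (h3 : g 3 ∈ K) (h2 : g 2 ∈ K) (h1 : g 1 ∈ K) :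
    H1 g ≤ K :=
  sup_le (H2_le h3 h2) ((AddSubgroup.zmultiples_le).2 h1)

theorem H0_eq {g : Fin 4 → R} (hg : AddSubgroup.closure (Set.range g) = ⊤) :
    H1 g ⊔ AddSubgroup.zmultiples (g 0) = ⊤ := by
  rw [eq_top_iff, ← hg, AddSubgroup.closure_le]
  rintro _ ⟨i, rfl⟩
  fin_cases i
  · exact AddSubgroup.mem_sup_right (AddSubgroup.mem_zmultiples _)
  · exact AddSubgroup.mem_sup_left (m11 g)
  · exact AddSubgroup.mem_sup_left (m12 g)
  · exact AddSubgroup.mem_sup_left (m13 g)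

/-- the orders of the steps of the filtration -/
theorem cards (hp : 1 < p) (hc : Nat.card R = p ^ 4) {g : Fin 4 → R}
    (hg : AddSubgroup.closure (Set.range g) = ⊤) (h3 : p • g 3 = 0) (h2 : p • g 2 ∈ H3 g)
    (h1 : p • g 1 ∈ H2 g) (h0 : p • g 0 ∈ H1 g) :
    Nat.card (H3 g) = p ∧ Nat.card (H2 g) = p ^ 2 ∧ Nat.card (H1 g) = p ^ 3 := by
  haveI : Finite R := by
    apply Nat.finite_of_card_ne_zero
    rw [hc]
    positivity
  have a4 : Nat.card (⊥ ⊔ AddSubgroup.zmultiples (g 3) : AddSubgroup R) ≤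
      p * Nat.card (⊥ : AddSubgroup R) := card_sup_le (by omega) ⊥ (g 3) (by simp [h3])
  rw [bot_sup_eq, AddSubgroup.card_bot, mul_one] at a4
  have a3 : Nat.card (H2 g) ≤ p * Nat.card (H3 g) := card_sup_le (by omega) _ _ h2
  have a2 : Nat.card (H1 g) ≤ p * Nat.card (H2 g) := card_sup_le (by omega) _ _ h1
  have a1 : Nat.card (H1 g ⊔ AddSubgroup.zmultiples (g 0) : AddSubgroup R) ≤
      p * Nat.card (H1 g) := card_sup_le (by omega) _ _ h0
  rw [H0_eq hg, AddSubgroup.card_top, hc] at a1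
  change Nat.card (H3 g) ≤ p at a4
  have hp0 : 0 < p := by omega
  have b1 : p ^ 3 ≤ Nat.card (H1 g) := by
    have : p * p ^ 3 ≤ p * Nat.card (H1 g) := by rw [← pow_succ']; exact a1
    exact Nat.le_of_mul_le_mul_left this hp0
  have b2 : p ^ 2 ≤ Nat.card (H2 g) := by
    have : p * p ^ 2 ≤ p * Nat.card (H2 g) := by rw [← pow_succ']; exact b1.trans a2
    exact Nat.le_of_mul_le_mul_left this hp0
  have b3 : p ≤ Nat.card (H3 g) := by
    have : p * p ≤ p * Nat.card (H3 g) := by rw [← pow_two]; exact b2.trans a3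
    exact Nat.le_of_mul_le_mul_left this hp0
  have c3 : Nat.card (H3 g) = p := le_antisymm a4 b3
  have c2 : Nat.card (H2 g) = p ^ 2 := by
    refine le_antisymm ?_ b2
    rw [c3] at a3
    rw [pow_two]
    exact a3
  have c1 : Nat.card (H1 g) = p ^ 3 := by
    refine le_antisymm ?_ b1
    rw [c2] at a2
    rw [pow_succ']
    exact a2
  exact ⟨c3, c2, c1⟩

/-- an upper bound for `Dd` -/
theorem Dd_le {g : Fin 4 → R} (hg : AddSubgroup.closure (Set.range g) = ⊤) {A : Set R}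
    {S K : AddSubgroup R} (hS : S ≤ AddSubgroup.closure A) (h1 : ∀ a ∈ A, p • a ∈ K)
    (h2 : ∀ a ∈ A, ∀ i, g i * a ∈ K ∧ a * g i ∈ K) : Dd p S ≤ K := by
  unfold Dd
  rw [AddSubgroup.closure_le]
  have q1 : ∀ s ∈ AddSubgroup.closure A, p • s ∈ K := by
    intro s hs
    induction hs using AddSubgroup.closure_induction with
    | mem x hx => exact h1 x hx
    | zero => rw [smul_zero]; exact zero_mem _
    | add x y _ _ hx hy => rw [smul_add]; exact add_mem hx hy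
    | neg x _ hx => rw [smul_neg]; exact neg_mem hx
  have q2 : ∀ a ∈ A, ∀ r : R, r * a ∈ K ∧ a * r ∈ K := by
    intro a ha r
    have hr : r ∈ AddSubgroup.closure (Set.range g) := by rw [hg]; exact AddSubgroup.mem_top r
    induction hr using AddSubgroup.closure_induction with
    | mem x hx =>
      obtain ⟨i, rfl⟩ := hx
      exact h2 a ha i
    | zero => rw [zero_mul, mul_zero]; exact ⟨zero_mem _, zero_mem _⟩
    | add x y _ _ hx hy =>
      rw [add_mul, mul_add]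
      exact ⟨add_mem hx.1 hy.1, add_mem hx.2 hy.2⟩
    | neg x _ hx =>
      rw [neg_mul, mul_neg]
      exact ⟨neg_mem hx.1, neg_mem hx.2⟩
  have q3 : ∀ s ∈ AddSubgroup.closure A, ∀ r : R, r * s ∈ K ∧ s * r ∈ K := by
    intro s hs r
    induction hs using AddSubgroup.closure_induction with
    | mem x hx => exact q2 x hx r
    | zero => rw [zero_mul, mul_zero]; exact ⟨zero_mem _, zero_mem _⟩
    | add x y _ _ hx hy =>
      rw [add_mul, mul_add]
      exact ⟨add_mem hx.1 hy.1, add_mem hx.2 hy.2⟩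
    | neg x _ hx =>
      rw [neg_mul, mul_neg]
      exact ⟨neg_mem hx.1, neg_mem hx.2⟩
  rintro x ⟨s, hs, rfl | ⟨r, rfl | rfl⟩⟩
  · exact q1 s (hS hs)
  · exact (q3 s (hS hs) r).1
  · exact (q3 s (hS hs) r).2

theorem Dd_p {S : AddSubgroup R} {s : R} (hs : s ∈ S) : p • s ∈ Dd p S :=
  AddSubgroup.subset_closure ⟨s, hs, Or.inl rfl⟩

theorem Dd_l {S : AddSubgroup R} {s : R} (hs : s ∈ S) (r : R) : r * s ∈ Dd p S :=
  AddSubgroup.subset_closure ⟨s, hs, Or.inr ⟨r, Or.inl rfl⟩⟩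

theorem Dd_r {S : AddSubgroup R} {s : R} (hs : s ∈ S) (r : R) : s * r ∈ Dd p S :=
  AddSubgroup.subset_closure ⟨s, hs, Or.inr ⟨r, Or.inr rfl⟩⟩

theorem H1_clos (g : Fin 4 → R) : H1 g ≤ AddSubgroup.closure {g 1, g 2, g 3} :=
  H1_le (AddSubgroup.subset_closure (by simp)) (AddSubgroup.subset_closure (by simp))
    (AddSubgroup.subset_closure (by simp))

theorem unit_mul_mem [Fact p.Prime] {K : AddSubgroup R} {x : R} (hx : p • x = 0) {a : ZMod p}
    (ha : a ≠ 0) (h : a.val • x ∈ K) : x ∈ K := by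
  have h1 : ((a * a⁻¹ : ZMod p)) = 1 := mul_inv_cancel₀ ha
  have h2 : ((a.val * (a⁻¹).val : ℕ) : ZMod p) = ((1 : ℕ) : ZMod p) := by
    rw [Nat.cast_mul, ZMod.natCast_zmod_val, ZMod.natCast_zmod_val, h1, Nat.cast_one]
  rw [ZMod.natCast_eq_natCast_iff] at h2
  have h3 : (a.val * (a⁻¹).val) • x = (1 : ℕ) • x := by
    have h4 : addOrderOf x ∣ p := addOrderOf_dvd_of_nsmul_eq_zero hx
    exact (nsmul_eq_nsmul_iff_modEq).2 (h2.of_dvd h4)
  rw [one_nsmul] at h3
  rw [← h3, mul_comm, mul_smul]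
  exact AddSubgroup.nsmul_mem _ h _

end Pool.NR.IB
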