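import Pool.Agent.H66.NR.Base

/-!
# Project NR, module I5A
-/

set_option autoImplicit false

namespace Pool.NR

universe u

open IB in
theorem i5a (_hb : BASStmt.{u}) : I5AStmt.{u} := by
  intro p _ R _ l m n hc hT
  obtain ⟨g, hg, hP, hM⟩ := hT
  have hp : p.Prime := Fact.out
  have P0 : p • g 0 = l.val • g 1 + m.val • g 2 + n.val • g 3 := by
    have := hP 0
    simpa [tab5a, Fin.sum_univ_four] using this
  have P1 : p • g 1 = l.val • g 2 + m.val • g 3 := by
    have := hP 1
    simpa [tab5a, Fin.sum_univ_four] using this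
  have P2 : p • g 2 = l.val • g 3 := by
    have := hP 2
    simpa [tab5a, Fin.sum_univ_four] using this
  have P3 : p • g 3 = 0 := by
    have := hP 3
    simpa [tab5a, Fin.sum_univ_four] using this
  have M00 : g 0 * g 0 = g 1 := by
    have := hM 0 0
    simpa [tab5a, Fin.sum_univ_four] using this
  have M01 : g 0 * g 1 = g 2 := by
    have := hM 0 1
    simpa [tab5a, Fin.sum_univ_four] using this
  have M02 : g 0 * g 2 = g 3 := by
    have := hM 0 2
    simpa [tab5a, Fin.sum_univ_four] using this
  have M03 : g 0 * g 3 = 0 := by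
    have := hM 0 3
    simpa [tab5a, Fin.sum_univ_four] using this
  have M10 : g 1 * g 0 = g 2 := by
    have := hM 1 0
    simpa [tab5a, Fin.sum_univ_four] using this
  have M11 : g 1 * g 1 = g 3 := by
    have := hM 1 1
    simpa [tab5a, Fin.sum_univ_four] using this
  have M12 : g 1 * g 2 = 0 := by
    have := hM 1 2
    simpa [tab5a, Fin.sum_univ_four] using this
  have M13 : g 1 * g 3 = 0 := by
    have := hM 1 3
    simpa [tab5a, Fin.sum_univ_four] using this
  have M20 : g 2 * g 0 = g 3 := by
    have := hM 2 0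
    simpa [tab5a, Fin.sum_univ_four] using this
  have M21 : g 2 * g 1 = 0 := by
    have := hM 2 1
    simpa [tab5a, Fin.sum_univ_four] using this
  have M22 : g 2 * g 2 = 0 := by
    have := hM 2 2
    simpa [tab5a, Fin.sum_univ_four] using this
  have M23 : g 2 * g 3 = 0 := by
    have := hM 2 3
    simpa [tab5a, Fin.sum_univ_four] using this
  have M30 : g 3 * g 0 = 0 := by
    have := hM 3 0
    simpa [tab5a, Fin.sum_univ_four] using this
  have M31 : g 3 * g 1 = 0 := by
    have := hM 3 1
    simpa [tab5a, Fin.sum_univ_four] using this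
  have M32 : g 3 * g 2 = 0 := by
    have := hM 3 2
    simpa [tab5a, Fin.sum_univ_four] using this
  have M33 : g 3 * g 3 = 0 := by
    have := hM 3 3
    simpa [tab5a, Fin.sum_univ_four] using this
  obtain ⟨c3, c2, c1⟩ := cards hp.one_lt hc hg P3
    (by rw [P2]; exact AddSubgroup.nsmul_mem _ (m33 g) _)
    (by rw [P1]; exact add_mem (AddSubgroup.nsmul_mem _ (m22 g) _)
          (AddSubgroup.nsmul_mem _ (m23 g) _))
    (by rw [P0]; exact add_mem (add_mem (AddSubgroup.nsmul_mem _ (m11 g) _)
          (AddSubgroup.nsmul_mem _ (m12 g) _)) (AddSubgroup.nsmul_mem _ (m13 g) _))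
  have D1 : Dd p (⊤ : AddSubgroup R) = H1 g := by
    apply le_antisymm
    · refine Dd_le hg (A := Set.range g) (by rw [hg]) ?_ ?_
      · rintro _ ⟨i, rfl⟩
        fin_cases i
        · change p • g 0 ∈ _
          rw [P0]
          exact add_mem (add_mem (AddSubgroup.nsmul_mem _ (m11 g) _)
            (AddSubgroup.nsmul_mem _ (m12 g) _)) (AddSubgroup.nsmul_mem _ (m13 g) _)
        · change p • g 1 ∈ _
          rw [P1]
          exact add_mem (AddSubgroup.nsmul_mem _ (m12 g) _) (AddSubgroup.nsmul_mem _ (m13 g) _)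
        · change p • g 2 ∈ _
          rw [P2]
          exact AddSubgroup.nsmul_mem _ (m13 g) _
        · change p • g 3 ∈ _
          rw [P3]
          exact zero_mem _
      · rintro _ ⟨i, rfl⟩ j
        have e1 := m11 g
        have e2 := m12 g
        have e3 := m13 g
        have e0 : (0 : R) ∈ H1 g := zero_mem _
        fin_cases i <;> fin_cases j <;> simp [M00, M01, M02, M03, M10, M11, M12, M13, M20, M21,
          M22, M23, M30, M31, M32, M33, e1, e2, e3, e0]
    · refine H1_le ?_ ?_ ?_
      · rw [← M02]; exact Dd_l (AddSubgroup.mem_top _) _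
      · rw [← M01]; exact Dd_l (AddSubgroup.mem_top _) _
      · rw [← M00]; exact Dd_l (AddSubgroup.mem_top _) _
  have D2 : Dd p (Dd p (⊤ : AddSubgroup R)) = H2 g := by
    rw [D1]
    apply le_antisymm
    · refine Dd_le hg (H1_clos g) ?_ ?_
      · rintro a (rfl | rfl | rfl)
        · rw [P1]
          exact add_mem (AddSubgroup.nsmul_mem _ (m22 g) _) (AddSubgroup.nsmul_mem _ (m23 g) _)
        · rw [P2]
          exact AddSubgroup.nsmul_mem _ (m23 g) _
        · rw [P3]
          exact zero_mem _
      · have e2 := m22 g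
        have e3 := m23 g
        have e0 : (0 : R) ∈ H2 g := zero_mem _
        rintro a (rfl | rfl | rfl) j
        all_goals
          fin_cases j <;> simp [M00, M01, M02, M03, M10, M11, M12, M13, M20, M21,
            M22, M23, M30, M31, M32, M33, e2, e3, e0]
    · refine H2_le ?_ ?_
      · rw [← M02]; exact Dd_l (m12 g) _
      · rw [← M01]; exact Dd_l (m11 g) _
  refine ⟨by rw [D1, c1], by rw [D2, c2], g 0, ?_⟩
  rw [D2, M00]
  intro h
  have h1 : H1 g = H2 g := le_antisymm (H1_le (m23 g) (m22 g) h)
    (H2_le (m13 g) (m12 g))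
  rw [h1, c2] at c1
  have := Nat.pow_right_injective hp.two_le c1
  omega

end Pool.NR
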