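import Pool.Agent.H66.NR.Base

/-!
# Project NR, module I5B
-/

set_option autoImplicit false

namespace Pool.NR

universe u

open IB in
theorem i5b (_hb : BASStmt.{u}) : I5BStmt.{u} := by
  intro p _ R _ c d hc hT
  obtain ⟨g, hg, hP, hM⟩ := hT
  have hp : p.Prime := Fact.out
  have P0 : p • g 0 = g 1 := by
    have := hP 0
    simpa [tab5b, Fin.sum_univ_four] using this
  have P1 : p • g 1 = g 2 := by
    have := hP 1
    simpa [tab5b, Fin.sum_univ_four] using this
  have P2 : p • g 2 = g 3 := by
    have := hP 2
    simpa [tab5b, Fin.sum_univ_four] using this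
  have P3 : p • g 3 = 0 := by
    have := hP 3
    simpa [tab5b, Fin.sum_univ_four] using this
  have M00 : g 0 * g 0 = c.val • g 2 + d.val • g 3 := by
    have := hM 0 0
    simpa [tab5b, Fin.sum_univ_four] using this
  have M01 : g 0 * g 1 = c.val • g 3 := by
    have := hM 0 1
    simpa [tab5b, Fin.sum_univ_four] using this
  have M02 : g 0 * g 2 = 0 := by
    have := hM 0 2
    simpa [tab5b, Fin.sum_univ_four] using this
  have M03 : g 0 * g 3 = 0 := by
    have := hM 0 3
    simpa [tab5b, Fin.sum_univ_four] using this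
  have M10 : g 1 * g 0 = c.val • g 3 := by
    have := hM 1 0
    simpa [tab5b, Fin.sum_univ_four] using this
  have M11 : g 1 * g 1 = 0 := by
    have := hM 1 1
    simpa [tab5b, Fin.sum_univ_four] using this
  have M12 : g 1 * g 2 = 0 := by
    have := hM 1 2
    simpa [tab5b, Fin.sum_univ_four] using this
  have M13 : g 1 * g 3 = 0 := by
    have := hM 1 3
    simpa [tab5b, Fin.sum_univ_four] using this
  have M20 : g 2 * g 0 = 0 := by
    have := hM 2 0
    simpa [tab5b, Fin.sum_univ_four] using this
  have M21 : g 2 * g 1 = 0 := by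
    have := hM 2 1
    simpa [tab5b, Fin.sum_univ_four] using this
  have M22 : g 2 * g 2 = 0 := by
    have := hM 2 2
    simpa [tab5b, Fin.sum_univ_four] using this
  have M23 : g 2 * g 3 = 0 := by
    have := hM 2 3
    simpa [tab5b, Fin.sum_univ_four] using this
  have M30 : g 3 * g 0 = 0 := by
    have := hM 3 0
    simpa [tab5b, Fin.sum_univ_four] using this
  have M31 : g 3 * g 1 = 0 := by
    have := hM 3 1
    simpa [tab5b, Fin.sum_univ_four] using this
  have M32 : g 3 * g 2 = 0 := by
    have := hM 3 2
    simpa [tab5b, Fin.sum_univ_four] using this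
  have M33 : g 3 * g 3 = 0 := by
    have := hM 3 3
    simpa [tab5b, Fin.sum_univ_four] using this
  obtain ⟨c3, c2, c1⟩ := cards hp.one_lt hc hg P3 (by rw [P2]; exact m33 g)
    (by rw [P1]; exact m22 g) (by rw [P0]; exact m11 g)
  -- all products of elements lie in `H2`
  have key : ∀ i j, g i * g j ∈ H2 g := by
    intro i j
    have k1 : c.val • g 2 + d.val • g 3 ∈ H2 g :=
      add_mem (AddSubgroup.nsmul_mem _ (m22 g) _) (AddSubgroup.nsmul_mem _ (m23 g) _)
    have k2 : c.val • g 3 ∈ H2 g := AddSubgroup.nsmul_mem _ (m23 g) _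
    have e0 : (0 : R) ∈ H2 g := zero_mem _
    fin_cases i <;> fin_cases j <;> simp [M00, M01, M02, M03, M10, M11, M12, M13, M20, M21,
      M22, M23, M30, M31, M32, M33, k1, k2, e0]
  have H21 : H2 g ≤ H1 g := H2_le (m13 g) (m12 g)
  have D1 : Dd p (⊤ : AddSubgroup R) = H1 g := by
    apply le_antisymm
    · refine Dd_le hg (A := Set.range g) (by rw [hg]) ?_ ?_
      · rintro _ ⟨i, rfl⟩
        fin_cases i
        · change p • g 0 ∈ _
          rw [P0]
          exact m11 g
        · change p • g 1 ∈ _
          rw [P1]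
          exact m12 g
        · change p • g 2 ∈ _
          rw [P2]
          exact m13 g
        · change p • g 3 ∈ _
          rw [P3]
          exact zero_mem _
      · rintro _ ⟨i, rfl⟩ j
        exact ⟨H21 (key _ _), H21 (key _ _)⟩
    · refine H1_le ?_ ?_ ?_
      · rw [← P2]; exact Dd_p (AddSubgroup.mem_top _)
      · rw [← P1]; exact Dd_p (AddSubgroup.mem_top _)
      · rw [← P0]; exact Dd_p (AddSubgroup.mem_top _)
  have D2 : Dd p (Dd p (⊤ : AddSubgroup R)) = H2 g := by
    rw [D1]
    apply le_antisymm
    · refine Dd_le hg (H1_clos g) ?_ ?_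
      · rintro a (rfl | rfl | rfl)
        · rw [P1]; exact m22 g
        · rw [P2]; exact m23 g
        · rw [P3]; exact zero_mem _
      · rintro a (rfl | rfl | rfl) j
        · exact ⟨key _ _, key _ _⟩
        · exact ⟨key _ _, key _ _⟩
        · exact ⟨key _ _, key _ _⟩
    · refine H2_le ?_ ?_
      · rw [← P2]; exact Dd_p (m12 g)
      · rw [← P1]; exact Dd_p (m11 g)
  refine ⟨by rw [D1, c1], by rw [D2, c2], ?_⟩
  rw [D2]
  have q : ∀ x y : R, x * y ∈ H2 g := by
    intro x y
    have hx : x ∈ AddSubgroup.closure (Set.range g) := by rw [hg]; exact AddSubgroup.mem_top x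
    have hy : y ∈ AddSubgroup.closure (Set.range g) := by rw [hg]; exact AddSubgroup.mem_top y
    induction hx using AddSubgroup.closure_induction with
    | mem x hx =>
      obtain ⟨i, rfl⟩ := hx
      induction hy using AddSubgroup.closure_induction with
      | mem y hy =>
        obtain ⟨j, rfl⟩ := hy
        exact key i j
      | zero => rw [mul_zero]; exact zero_mem _
      | add y z _ _ hy hz => rw [mul_add]; exact add_mem hy hz
      | neg y _ hy => rw [mul_neg]; exact neg_mem hy
    | zero => rw [zero_mul]; exact zero_mem _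
    | add x z _ _ hx hz => rw [add_mul]; exact add_mem hx hz
    | neg x _ hx => rw [neg_mul]; exact neg_mem hx
  exact fun x => q x x

end Pool.NR
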