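import Pool.Agent.H66.NR.Base

/-!
# Project NR, module I5I
-/

set_option autoImplicit false

namespace Pool.NR

universe u

open IB in
theorem i5i (_hb : BASStmt.{u}) : I5IStmt.{u} := by
  intro p _ R _ α β γ hc hne hT
  obtain ⟨g, hg, hP, hM⟩ := hT
  have hp : p.Prime := Fact.out
  have P0 : p • g 0 = g 1 := by
    have := hP 0
    simpa [tab5i, Fin.sum_univ_four] using this
  have P1 : p • g 1 = γ.val • g 3 := by
    have := hP 1
    simpa [tab5i, Fin.sum_univ_four] using this
  have P2 : p • g 2 = β.val • g 3 := by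
    have := hP 2
    simpa [tab5i, Fin.sum_univ_four] using this
  have P3 : p • g 3 = 0 := by
    have := hP 3
    simpa [tab5i, Fin.sum_univ_four] using this
  have M00 : g 0 * g 0 = g 2 := by
    have := hM 0 0
    simpa [tab5i, Fin.sum_univ_four] using this
  have M01 : g 0 * g 1 = β.val • g 3 := by
    have := hM 0 1
    simpa [tab5i, Fin.sum_univ_four] using this
  have M02 : g 0 * g 2 = α.val • g 3 := by
    have := hM 0 2
    simpa [tab5i, Fin.sum_univ_four] using this
  have M03 : g 0 * g 3 = 0 := by
    have := hM 0 3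
    simpa [tab5i, Fin.sum_univ_four] using this
  have M10 : g 1 * g 0 = β.val • g 3 := by
    have := hM 1 0
    simpa [tab5i, Fin.sum_univ_four] using this
  have M11 : g 1 * g 1 = 0 := by
    have := hM 1 1
    simpa [tab5i, Fin.sum_univ_four] using this
  have M12 : g 1 * g 2 = 0 := by
    have := hM 1 2
    simpa [tab5i, Fin.sum_univ_four] using this
  have M13 : g 1 * g 3 = 0 := by
    have := hM 1 3
    simpa [tab5i, Fin.sum_univ_four] using this
  have M20 : g 2 * g 0 = α.val • g 3 := by
    have := hM 2 0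
    simpa [tab5i, Fin.sum_univ_four] using this
  have M21 : g 2 * g 1 = 0 := by
    have := hM 2 1
    simpa [tab5i, Fin.sum_univ_four] using this
  have M22 : g 2 * g 2 = 0 := by
    have := hM 2 2
    simpa [tab5i, Fin.sum_univ_four] using this
  have M23 : g 2 * g 3 = 0 := by
    have := hM 2 3
    simpa [tab5i, Fin.sum_univ_four] using this
  have M30 : g 3 * g 0 = 0 := by
    have := hM 3 0
    simpa [tab5i, Fin.sum_univ_four] using this
  have M31 : g 3 * g 1 = 0 := by
    have := hM 3 1
    simpa [tab5i, Fin.sum_univ_four] using this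
  have M32 : g 3 * g 2 = 0 := by
    have := hM 3 2
    simpa [tab5i, Fin.sum_univ_four] using this
  have M33 : g 3 * g 3 = 0 := by
    have := hM 3 3
    simpa [tab5i, Fin.sum_univ_four] using this
  obtain ⟨c3, c2, c1⟩ := cards hp.one_lt hc hg P3
    (by rw [P2]; exact AddSubgroup.nsmul_mem _ (m33 g) _)
    (by rw [P1]; exact AddSubgroup.nsmul_mem _ (m23 g) _)
    (by rw [P0]; exact m11 g)
  have H31 : H3 g ≤ H1 g := H3_le (m13 g)
  have a3 : α.val • g 3 ∈ H3 g := AddSubgroup.nsmul_mem _ (m33 g) _
  have b3 : β.val • g 3 ∈ H3 g := AddSubgroup.nsmul_mem _ (m33 g) _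
  have e3 : γ.val • g 3 ∈ H3 g := AddSubgroup.nsmul_mem _ (m33 g) _
  have g3mem : ∀ S : AddSubgroup R, g 1 ∈ S → g 2 ∈ S → g 3 ∈ Dd p S := by
    intro S h1 h2
    rcases hne with h | h | h
    · refine unit_mul_mem P3 h ?_
      rw [← M02]
      exact Dd_l h2 _
    · refine unit_mul_mem P3 h ?_
      rw [← P2]
      exact Dd_p h2
    · refine unit_mul_mem P3 h ?_
      rw [← P1]
      exact Dd_p h1
  have D1 : Dd p (⊤ : AddSubgroup R) = H1 g := by
    apply le_antisymm
    · refine Dd_le hg (A := Set.range g) (by rw [hg]) ?_ ?_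
      · rintro _ ⟨i, rfl⟩
        fin_cases i
        · change p • g 0 ∈ _
          rw [P0]
          exact m11 g
        · change p • g 1 ∈ _
          rw [P1]
          exact H31 e3
        · change p • g 2 ∈ _
          rw [P2]
          exact H31 b3
        · change p • g 3 ∈ _
          rw [P3]
          exact zero_mem _
      · rintro _ ⟨i, rfl⟩ j
        have k1 := H31 a3
        have k2 := H31 b3
        have k3 := m12 g
        have e0 : (0 : R) ∈ H1 g := zero_mem _
        fin_cases i <;> fin_cases j <;> simp [M00, M01, M02, M03, M10, M11, M12, M13, M20, M21,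
          M22, M23, M30, M31, M32, M33, k1, k2, k3, e0]
    · refine H1_le (g3mem _ (AddSubgroup.mem_top _) (AddSubgroup.mem_top _)) ?_ ?_
      · rw [← M00]; exact Dd_l (AddSubgroup.mem_top _) _
      · rw [← P0]; exact Dd_p (AddSubgroup.mem_top _)
  have D2 : Dd p (Dd p (⊤ : AddSubgroup R)) = H3 g := by
    rw [D1]
    apply le_antisymm
    · refine Dd_le hg (H1_clos g) ?_ ?_
      · rintro a (rfl | rfl | rfl)
        · rw [P1]; exact e3
        · rw [P2]; exact b3
        · rw [P3]; exact zero_mem _
      · have e0 : (0 : R) ∈ H3 g := zero_mem _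
        rintro a (rfl | rfl | rfl) j
        all_goals
          fin_cases j <;> simp [M00, M01, M02, M03, M10, M11, M12, M13, M20, M21,
            M22, M23, M30, M31, M32, M33, a3, b3, e0]
    · exact H3_le (g3mem _ (m11 g) (m12 g))
  exact ⟨by rw [D1, c1], by rw [D2, c3]⟩

end Pool.NR
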